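import Mathlib

/-!
Diagonal forms of high degree without zeros over a number field.
-/

set_option autoImplicit false

namespace Pool.Agent.N254.HY

open Finset IsDedekindDomain NumberField

theorem exists_uniformizer (K : Type) [Field K] [NumberField K] :
    ∃ (v : Valuation K (WithZero (Multiplicative ℤ))) (p : K),
      v p = ((Multiplicative.ofAdd (-1 : ℤ) : Multiplicative ℤ) : WithZero (Multiplicative ℤ)) := by
  obtain ⟨I, hI⟩ := Ring.not_isField_iff_exists_prime.1 (RingOfIntegers.not_isField K)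
  let v : HeightOneSpectrum (𝓞 K) := ⟨I, hI.2, hI.1⟩
  obtain ⟨p, hp⟩ := v.valuation_exists_uniformizer K
  exact ⟨v.valuation K, p, hp⟩

theorem aniso (K : Type) [Field K] [NumberField K] : ∃ p : K, p ≠ 0 ∧ ∀ (M D : ℕ), M < D →
    ∀ (a : K) (b : Fin M → K), a ^ D + ∑ l : Fin M, p ^ ((l : ℕ) + 1) * b l ^ D = 0 →
      a = 0 ∧ ∀ l, b l = 0 := by
  classical
  obtain ⟨v, p, hp⟩ := exists_uniformizer K
  have hp0 : p ≠ 0 := by
    rintro rfl
    rw [map_zero] at hp
    exact WithZero.coe_ne_zero hp.symm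
  refine ⟨p, hp0, fun M D hMD a b h => ?_⟩
  let w : Option (Fin M) → K := fun o => o.elim a b
  let k : Option (Fin M) → ℕ := fun o => o.elim 0 (fun l => (l : ℕ) + 1)
  have hk : ∀ o, k o < D := by
    rintro (_ | l)
    · simp only [k, Option.elim_none]; omega
    · simp only [k, Option.elim_some]; have := l.2; omega
  have hkinj : Function.Injective k := by
    rintro (_ | l) (_ | l') h0
    · rfl
    · simp [k] at h0
    · simp [k] at h0
    · simp only [k, Option.elim_some, add_left_inj] at h0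
      rw [Fin.ext h0]
  have hsum : ∑ o : Option (Fin M), p ^ k o * w o ^ D = 0 := by
    rw [Fintype.sum_option]
    simp only [k, w, Option.elim_none, Option.elim_some, pow_zero, one_mul]
    exact h
  -- valuations of nonzero terms are different
  have hval : ∀ o, w o ≠ 0 → ∃ z : ℤ, v (p ^ k o * w o ^ D) =
      ((Multiplicative.ofAdd (-(k o : ℤ) + D * z) : Multiplicative ℤ) :
        WithZero (Multiplicative ℤ)) := by
    intro o ho
    have h1 : v (w o) ≠ 0 := (v.ne_zero_iff).2 ho
    obtain ⟨g, hg⟩ := WithZero.ne_zero_iff_exists.1 h1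
    refine ⟨Multiplicative.toAdd g, ?_⟩
    rw [map_mul, map_pow, map_pow, hp, ← hg, ← WithZero.coe_pow, ← WithZero.coe_pow,
      ← WithZero.coe_mul]
    congr 1
    apply Multiplicative.toAdd.injective
    rw [toAdd_mul, toAdd_pow, toAdd_pow, toAdd_ofAdd, toAdd_ofAdd]
    simp only [smul_eq_mul, nsmul_eq_mul]
    ring
  have hdiff : ∀ o o', w o ≠ 0 → w o' ≠ 0 → o ≠ o' →
      v (p ^ k o * w o ^ D) ≠ v (p ^ k o' * w o' ^ D) := by
    intro o o' ho ho' hoo h1
    obtain ⟨z, hz⟩ := hval o ho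
    obtain ⟨z', hz'⟩ := hval o' ho'
    rw [hz, hz', WithZero.coe_inj] at h1
    have h2 : -(k o : ℤ) + D * z = -(k o' : ℤ) + D * z' := Multiplicative.ofAdd.injective h1
    apply hoo
    apply hkinj
    have h3 : ((k o : ℤ) - k o') = D * (z - z') := by linarith
    have h4 : (D : ℤ) ∣ (k o : ℤ) - k o' := ⟨_, h3⟩
    have h5 : |(k o : ℤ) - k o'| < D := by
      rw [abs_lt]
      have := hk o
      have := hk o'
      constructor <;> omega
    have h6 := Int.eq_zero_of_abs_lt_dvd h4 h5
    omega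
  have hall : ∀ o, w o = 0 := by
    by_contra hcon
    push Not at hcon
    obtain ⟨o1, ho1⟩ := hcon
    let S : Finset (Option (Fin M)) := univ.filter (fun o => w o ≠ 0)
    have hS : S.Nonempty := ⟨o1, mem_filter.2 ⟨mem_univ _, ho1⟩⟩
    obtain ⟨o0, ho0, hmax⟩ := exists_max_image S (fun o => v (p ^ k o * w o ^ D)) hS
    have hw0 : w o0 ≠ 0 := (mem_filter.1 ho0).2
    have hv0 : v (p ^ k o0 * w o0 ^ D) ≠ 0 :=
      (v.ne_zero_iff).2 (mul_ne_zero (pow_ne_zero _ hp0) (pow_ne_zero _ hw0))
    rw [← add_sum_erase _ _ (mem_univ o0)] at hsum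
    have h1 : v (∑ o ∈ univ.erase o0, p ^ k o * w o ^ D) < v (p ^ k o0 * w o0 ^ D) := by
      apply v.map_sum_lt hv0
      intro o ho
      have hne := (mem_erase.1 ho).1
      by_cases hwo : w o = 0
      · rw [hwo, zero_pow (by omega), mul_zero, map_zero]
        exact zero_lt_iff.2 hv0
      · exact lt_of_le_of_ne (hmax o (mem_filter.2 ⟨mem_univ _, hwo⟩)) (hdiff o o0 hwo hw0 hne)
    have h2 : ∑ o ∈ univ.erase o0, p ^ k o * w o ^ D = -(p ^ k o0 * w o0 ^ D) := by
      linear_combination hsum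
    rw [h2, Valuation.map_neg] at h1
    exact lt_irrefl _ h1
  exact ⟨hall none, fun l => hall (some l)⟩

end Pool.Agent.N254.HY
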