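import Pool.Agent.N254.HY.Rank

/-!
Hyperbolic cyclic covers of projective spaces which contain a given hyperbolic variety.
-/

set_option autoImplicit false

namespace Pool.Agent.N254.HY

open MvPolynomial Finset

/-- `X_σ` is hyperbolic (in Brody's form): every holomorphic map from the complex plane to `X_σ`,
given by entire functions without common zeros, is constant. -/
def Hyp {K : Type} [Field K] {ι : Type} {n : ℕ} (σ : K →+* ℂ)
    (F : ι → MvPolynomial (Fin (n + 1)) K) : Prop :=
  ∀ f : ℂ → Fin (n + 1) → ℂ, Differentiable ℂ f → (∀ z, f z ≠ 0) →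
    (∀ z i, eval₂ σ (f z) (F i) = 0) → ∀ z w, ∃ c : ℂ, f z = c • f w

/-- the equation `w ^ N = A(x)` -/
noncomputable def cov {K : Type} [Field K] {n : ℕ} (N : ℕ) (A : MvPolynomial (Fin (n + 1)) K) :
    MvPolynomial (Fin (n + 2)) K := X (Fin.last (n + 1)) ^ N - rename Fin.castSucc A

theorem eval₂_cov {K : Type} [Field K] {n : ℕ} {R : Type} [CommRing R] (σ : K →+* R) (N : ℕ)
    (A : MvPolynomial (Fin (n + 1)) K) (y : Fin (n + 2) → R) :
    eval₂ σ y (cov N A) = y (Fin.last (n + 1)) ^ N - eval₂ σ (fun i => y (Fin.castSucc i)) A := by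
  unfold cov
  rw [eval₂_sub, eval₂_pow, eval₂_X, eval₂_rename]
  rfl

theorem cov_hom {K : Type} [Field K] {n : ℕ} {N : ℕ} {A : MvPolynomial (Fin (n + 1)) K}
    (hA : A.IsHomogeneous N) : (cov N A).IsHomogeneous N := by
  unfold cov
  apply IsHomogeneous.sub
  · have := (isHomogeneous_X K (Fin.last (n + 1))).pow N
    simpa using this
  · exact hA.rename_isHomogeneous

theorem eval₂_smul_hom {K : Type} [Field K] {n e : ℕ} {R : Type} [CommRing R] (σ : K →+* R)
    {F : MvPolynomial (Fin (n + 1)) K} (hF : F.IsHomogeneous e) (g : R) (q : Fin (n + 1) → R) :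
    eval₂ σ (fun i => g * q i) F = g ^ e * eval₂ σ q F := by
  rw [eval₂_eq', eval₂_eq', Finset.mul_sum]
  refine Finset.sum_congr rfl fun s hs' => ?_
  have hdeg : ∑ i, s i = e := by
    have h1 := hF (mem_support_iff.1 hs')
    rw [Finsupp.weight_apply, Finsupp.sum_fintype _ _ (fun _ => by simp)] at h1
    simpa using h1
  simp only [mul_pow]
  rw [prod_mul_distrib, prod_pow_eq_pow_sum, hdeg]
  ring

theorem ent_zero {f g : ℂ → ℂ} (hf : Differentiable ℂ f) (hg : Differentiable ℂ g) {z0 : ℂ}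
    (h0 : f z0 ≠ 0) (h : ∀ z, f z * g z = 0) : ∀ z, g z = 0 := by
  rcases Pool.Agent.H159R3.NV.ent_eq_zero_or hf hg h with h1 | h1
  · exact absurd (congrFun h1 z0) h0
  · exact fun z => congrFun h1 z

theorem ent_pow_eq {f g : ℂ → ℂ} (hf : Differentiable ℂ f) (hg : Differentiable ℂ g) {e : ℕ}
    (he : 1 ≤ e) {z0 : ℂ} (h0 : f z0 = g z0) (h1 : g z0 ≠ 0) (h : ∀ z, f z ^ e = g z ^ e) :
    ∀ z, f z = g z := by
  have hev : ∀ᶠ z in nhds z0, f z = g z := by
    have hc : Filter.Tendsto (fun z => f z / g z) (nhds z0) (nhds 1) := by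
      have h2 : ContinuousAt (fun z => f z / g z) z0 :=
        hf.continuous.continuousAt.div hg.continuous.continuousAt h1
      have h3 : f z0 / g z0 = 1 := by rw [h0, div_self h1]
      rw [← h3]
      exact h2
    have hfin : ((Polynomial.nthRootsFinset e (1 : ℂ) : Set ℂ) \ {1}).Finite :=
      (Finset.finite_toSet _).subset Set.diff_subset
    have hopen : ∀ᶠ x in nhds (1 : ℂ), x ∉ ((Polynomial.nthRootsFinset e (1 : ℂ) : Set ℂ) \ {1}) :=
      hfin.isClosed.isOpen_compl.mem_nhds (by simp)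
    have hg0 : ∀ᶠ z in nhds z0, g z ≠ 0 := hg.continuous.continuousAt.eventually_ne h1
    filter_upwards [hc.eventually hopen, hg0] with z hz hz2
    have h4 : f z / g z ∈ (Polynomial.nthRootsFinset e (1 : ℂ) : Set ℂ) := by
      rw [Finset.mem_coe, Polynomial.mem_nthRootsFinset (by omega), div_pow, h z]
      exact div_self (pow_ne_zero _ hz2)
    have h5 : f z / g z = 1 := by
      by_contra h6
      exact hz ⟨h4, h6⟩
    exact (div_eq_one_iff_eq hz2).1 h5
  have ha : AnalyticOnNhd ℂ f Set.univ := fun z _ => hf.analyticAt z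
  have hb : AnalyticOnNhd ℂ g Set.univ := fun z _ => hg.analyticAt z
  intro z
  exact congrFun (ha.eq_of_eventuallyEq hb hev) z

section

variable {K : Type} [Field K] {ι : Type} [Fintype ι] {n : ℕ}
  (F : ι → MvPolynomial (Fin (n + 1)) K) (d : ι → ℕ)

/-- the forms `F i * x_a ^ (b i) * x_b` of the same degree `1 + ∑ d i` -/
noncomputable def gg (j : ι × Fin (n + 1) × Fin (n + 1)) : MvPolynomial (Fin (n + 1)) K :=
  F j.1 * X j.2.1 ^ (∑ i, d i - d j.1) * X j.2.2

omit [Fintype ι] in
theorem le_sum' [Fintype ι] (i : ι) : d i ≤ ∑ i, d i :=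
  Finset.single_le_sum (f := d) (fun _ _ => Nat.zero_le _) (mem_univ i)

theorem gg_hom (hF : ∀ i, (F i).IsHomogeneous (d i)) (j : ι × Fin (n + 1) × Fin (n + 1)) :
    (gg F d j).IsHomogeneous (1 + ∑ i, d i) := by
  unfold gg
  have h1 := ((hF j.1).mul ((isHomogeneous_X K j.2.1).pow (∑ i, d i - d j.1))).mul
    (isHomogeneous_X K j.2.2)
  have h2 := le_sum' d j.1
  have h3 : d j.1 + 1 * (∑ i, d i - d j.1) + 1 = 1 + ∑ i, d i := by omega
  rw [h3] at h1
  exact h1

theorem eval₂_gg {R : Type} [CommRing R] (σ : K →+* R) (x : Fin (n + 1) → R)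
    (j : ι × Fin (n + 1) × Fin (n + 1)) : eval₂ σ x (gg F d j) =
      eval₂ σ x (F j.1) * x j.2.1 ^ (∑ i, d i - d j.1) * x j.2.2 := by
  unfold gg
  rw [eval₂_mul, eval₂_mul, eval₂_pow, eval₂_X, eval₂_X]

/-- the form `∑ c l * (L l (g)) ^ D` -/
noncomputable def AA {m : ℕ} (φ : (ι × Fin (n + 1) × Fin (n + 1)) ≃ Fin m) (M D : ℕ)
    (c : Fin M → K) : MvPolynomial (Fin (n + 1)) K :=
  -∑ l : Fin M, C (c l) * lf φ l (gg F d) ^ D

variable {m : ℕ} (φ : (ι × Fin (n + 1) × Fin (n + 1)) ≃ Fin m) (M D : ℕ) (c : Fin M → K)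

theorem AA_hom (hF : ∀ i, (F i).IsHomogeneous (d i)) :
    (AA F d φ M D c).IsHomogeneous (D * (1 + ∑ i, d i)) := by
  unfold AA
  apply IsHomogeneous.neg
  apply IsHomogeneous.sum
  intro l _
  have h1 : (lf φ l (gg F d)).IsHomogeneous (1 + ∑ i, d i) := by
    unfold lf
    apply IsHomogeneous.sum
    intro j _
    have h2 : (((2 : MvPolynomial (Fin (n + 1)) K) ^ (m + 2) ^ (l : ℕ)) ^ (φ j : ℕ)) =
        C ((2 ^ (m + 2) ^ (l : ℕ)) ^ (φ j : ℕ)) := by
      rw [C_pow, C_pow]; rfl
    rw [h2]
    have h3 := (gg_hom F d hF j).mul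
      (isHomogeneous_C (Fin (n + 1)) (((2 : K) ^ (m + 2) ^ (l : ℕ)) ^ (φ j : ℕ)))
    simpa using h3
  have h4 := (isHomogeneous_C (Fin (n + 1)) (c l)).mul (h1.pow D)
  have h5 : 0 + (1 + ∑ i, d i) * D = D * (1 + ∑ i, d i) := by ring
  rw [h5] at h4
  exact h4

theorem eval₂_AA {R : Type} [CommRing R] (σ : K →+* R) (x : Fin (n + 1) → R) :
    eval₂ σ x (AA F d φ M D c) = -∑ l : Fin M, σ (c l) * lf φ l (fun j =>
      eval₂ σ x (F j.1) * x j.2.1 ^ (∑ i, d i - d j.1) * x j.2.2) ^ D := by
  unfold AA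
  rw [eval₂_neg, eval₂_sum]
  congr 1
  apply sum_congr rfl
  intro l _
  rw [eval₂_mul, eval₂_C, eval₂_pow]
  congr 2
  unfold lf
  rw [eval₂_sum]
  apply sum_congr rfl
  intro j _
  rw [eval₂_mul, eval₂_gg, eval₂_pow, eval₂_pow]
  congr 3
  have : (2 : MvPolynomial (Fin (n + 1)) K) = C 2 := rfl
  rw [this, eval₂_C, map_ofNat]

/-- Every entire curve in the cyclic cover is constant or is contained in `X`. -/
theorem cover_curve (σ : K →+* ℂ) (hF : ∀ i, (F i).IsHomogeneous (d i))
    (hM : m ^ 3 + 3 * m ≤ M) (hD : M ^ 2 ≤ D) (hD1 : 1 ≤ D) (hc : ∀ l, c l ≠ 0)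
    (f : ℂ → Fin (n + 2) → ℂ) (hf : Differentiable ℂ f) (hf0 : ∀ z, f z ≠ 0)
    (hfG : ∀ z, eval₂ σ (f z) (cov (D * (1 + ∑ i, d i)) (AA F d φ M D c)) = 0) :
    (∀ z w, ∃ a : ℂ, f z = a • f w) ∨ ∀ z, f z (Fin.last (n + 1)) = 0 ∧
      ∀ i, eval₂ σ (fun j => f z (Fin.castSucc j)) (F i) = 0 := by
  classical
  have hfj : ∀ j, Differentiable ℂ (fun z => f z j) := fun j => by
    rw [differentiable_pi] at hf
    exact hf j
  set e : ℕ := 1 + ∑ i, d i with he
  have he1 : 1 ≤ e := by omega
  let x : ℂ → Fin (n + 1) → ℂ := fun z i => f z (Fin.castSucc i)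
  let w : ℂ → ℂ := fun z => f z (Fin.last (n + 1))
  have hx : ∀ i, Differentiable ℂ (fun z => x z i) := fun i => hfj _
  have hw : Differentiable ℂ w := hfj _
  have hxd : Differentiable ℂ x := by
    rw [differentiable_pi]; exact hx
  have hFd : ∀ i, Differentiable ℂ (fun z => eval₂ σ (x z) (F i)) := by
    intro i
    have h1 : (fun z => eval₂ σ (x z) (F i)) = fun z => ∑ s ∈ (F i).support,
        σ ((F i).coeff s) * ∏ k, x z k ^ s k := by
      funext z
      rw [eval₂_eq']
    rw [h1]
    exact Differentiable.fun_sum fun s _ =>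
      (Differentiable.fun_finset_prod fun k _ => (hx k).pow _).const_mul _
  let u : ℂ → (ι × Fin (n + 1) × Fin (n + 1)) → ℂ := fun z j =>
    eval₂ σ (x z) (F j.1) * x z j.2.1 ^ (∑ i, d i - d j.1) * x z j.2.2
  have hu : ∀ j, Differentiable ℂ (fun z => u z j) := fun j =>
    ((hFd j.1).mul ((hx j.2.1).pow _)).mul (hx j.2.2)
  have hs : ∀ z, 1 * (w z ^ e) ^ D + ∑ l : Fin M, σ (c l) * (lf φ l (u z)) ^ D = 0 := by
    intro z
    have h1 := hfG z
    rw [eval₂_cov, eval₂_AA, sub_neg_eq_add] at h1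
    rw [one_mul, ← pow_mul, mul_comm e D]
    exact h1
  have key : ∀ z1 z2, (∀ i j, u z1 i * u z2 j = u z2 i * u z1 j) ∧
      ∀ j, w z1 ^ e * u z2 j = w z2 ^ e * u z1 j := fun z1 z2 =>
    rank_one φ hM hD hD1 1 one_ne_zero (fun l => σ (c l))
      (fun l => (map_ne_zero σ).2 (hc l)) (fun z => w z ^ e) u (hw.pow e) hu hs z1 z2
  have hnz : ∀ z, w z ≠ 0 ∨ ∃ k, x z k ≠ 0 := by
    intro z
    by_contra hcon
    push Not at hcon
    apply hf0 z
    funext i
    refine Fin.lastCases ?_ (fun j => ?_) i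
    · exact hcon.1
    · exact hcon.2 j
  have hsplit : ∀ (z z' a : ℂ), (∀ k, x z k = a * x z' k) → w z = a * w z' → f z = a • f z' := by
    intro z z' a h1 h2
    funext i
    refine Fin.lastCases ?_ (fun j => ?_) i
    · exact h2
    · exact h1 j
  by_cases hall : ∀ z, w z ^ e = 0 ∧ ∀ j, u z j = 0
  · have hw0 : ∀ z, w z = 0 := fun z => pow_eq_zero_iff (by omega) |>.1 (hall z).1
    have hx0 : ∀ z, x z ≠ 0 := by
      intro z h0
      rcases hnz z with h1 | ⟨k, hk⟩
      · exact h1 (hw0 z)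
      · exact hk (congrFun h0 k)
    have hFz : ∀ z i, eval₂ σ (x z) (F i) = 0 := by
      intro z i
      obtain ⟨k, hk⟩ := Function.ne_iff.1 (hx0 z)
      have h1 := (hall z).2 (i, k, k)
      simp only [u] at h1
      rcases mul_eq_zero.1 h1 with h2 | h2
      · rcases mul_eq_zero.1 h2 with h3 | h3
        · exact h3
        · exact absurd h3 (pow_ne_zero _ hk)
      · exact absurd h2 hk
    exact Or.inr fun z => ⟨hw0 z, hFz z⟩
  · push Not at hall
    obtain ⟨z0, hz0⟩ := hall
    have h1 : ∃ j, u z0 j ≠ 0 := by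
      by_contra hcon
      push Not at hcon
      have h2 := hs z0
      have h3 : ∀ l : Fin M, lf φ l (u z0) = 0 := by
        intro l
        unfold lf
        exact sum_eq_zero fun j _ => by rw [hcon j, zero_mul]
      simp only [h3] at h2
      rw [zero_pow (by omega)] at h2
      simp only [mul_zero, sum_const_zero, add_zero, one_mul] at h2
      obtain ⟨j, hj⟩ := hz0 (pow_eq_zero_iff (by omega) |>.1 h2)
      exact hj (hcon j)
    obtain ⟨⟨i0, j1, r⟩, hj⟩ := h1
    have hΦ : eval₂ σ (x z0) (F i0) ≠ 0 := fun h => hj (by simp only [u]; rw [h]; ring)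
    have hr : x z0 r ≠ 0 := fun h => hj (by simp only [u]; rw [h]; ring)
    set b : ℕ := ∑ i, d i - d i0 with hb
    -- the coordinates of x
    have hxk : ∀ k z, x z k * x z0 r = x z0 k * x z r := by
      intro k
      have h2 := ent_zero (z0 := z0) (f := fun z => eval₂ σ (x z) (F i0) * x z r ^ b)
        (g := fun z => x z k * x z0 r - x z0 k * x z r) ((hFd i0).mul ((hx r).pow b))
        (((hx k).mul_const _).sub ((hx r).const_mul _))
        (mul_ne_zero hΦ (pow_ne_zero _ hr)) (by
          intro z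
          have h3 := (key z z0).1 (i0, r, k) (i0, r, r)
          simp only [u] at h3
          rw [← hb] at h3
          have h4 : eval₂ σ (x z0) (F i0) * x z0 r ^ b ≠ 0 := mul_ne_zero hΦ (pow_ne_zero _ hr)
          apply (mul_eq_zero.1 _).resolve_left h4
          linear_combination h3)
      intro z
      exact sub_eq_zero.1 (h2 z)
    have hxr : ∀ z k, x z k = x z r / x z0 r * x z0 k := by
      intro z k
      have := hxk k z
      field_simp
      linear_combination this
    have hFr : ∀ z, eval₂ σ (x z) (F i0) = (x z r / x z0 r) ^ d i0 * eval₂ σ (x z0) (F i0) := by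
      intro z
      have h2 : x z = fun k => x z r / x z0 r * x z0 k := funext (hxr z)
      have h3 := eval₂_smul_hom σ (hF i0) (x z r / x z0 r) (x z0)
      rw [← h3]
      congr 1
    have hdb : d i0 + b + 1 = e := by
      have := le_sum' d i0
      omega
    have hwe : ∀ z, (w z * x z0 r) ^ e = (w z0 * x z r) ^ e := by
      intro z
      have h2 := (key z z0).2 (i0, r, r)
      simp only [u] at h2
      rw [← hb, hFr z] at h2
      have h3 : eval₂ σ (x z0) (F i0) ≠ 0 := hΦ
      apply mul_left_cancel₀ h3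
      have h4 : (x z r) ^ e = (x z r / x z0 r) ^ d i0 * x z0 r ^ d i0 * x z r ^ b * x z r := by
        rw [← mul_pow, div_mul_cancel₀ _ hr, ← hdb]
        ring
      have h5 : (x z0 r) ^ e = x z0 r ^ b * x z0 r * x z0 r ^ d i0 := by
        rw [← hdb]; ring
      rw [mul_pow, mul_pow, h4, h5]
      linear_combination (x z0 r ^ d i0) * h2
    have hwr : ∀ z, w z * x z0 r = w z0 * x z r := by
      by_cases hw0 : w z0 = 0
      · intro z
        have h2 := hwe z
        rw [hw0, zero_mul, zero_pow (by omega)] at h2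
        rw [pow_eq_zero_iff (by omega) |>.1 h2, hw0, zero_mul]
      · exact ent_pow_eq (f := fun z => w z * x z0 r) (g := fun z => w z0 * x z r)
          (hw.mul_const _) ((hx r).const_mul _) he1 rfl (mul_ne_zero hw0 hr) hwe
    left
    have hall : ∀ z, f z = (x z r / x z0 r) • f z0 := by
      intro z
      apply hsplit z z0 _ (hxr z)
      have := hwr z
      field_simp
      linear_combination this
    intro z z'
    have hr' : x z' r / x z0 r ≠ 0 := by
      intro h0
      apply hf0 z'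
      rw [hall z', h0, zero_smul]
    refine ⟨(x z r / x z0 r) * (x z' r / x z0 r)⁻¹, ?_⟩
    rw [hall z', smul_smul, mul_assoc, inv_mul_cancel₀ hr', mul_one]
    exact hall z

/-- The cyclic cover is hyperbolic if and only if `X` is hyperbolic. -/
theorem cover_hyp (σ : K →+* ℂ) (hF : ∀ i, (F i).IsHomogeneous (d i))
    (hM : m ^ 3 + 3 * m ≤ M) (hD : M ^ 2 ≤ D) (hD1 : 1 ≤ D) (hc : ∀ l, c l ≠ 0) :
    Hyp σ (fun _ : Unit => cov (D * (1 + ∑ i, d i)) (AA F d φ M D c)) ↔ Hyp σ F := by
  constructor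
  · intro h x hx hx0 hxF
    have hsn : ∀ z, (fun i => (Fin.snoc (x z) 0 : Fin (n + 2) → ℂ) (Fin.castSucc i)) = x z :=
      fun z => funext fun i => Fin.snoc_castSucc _ _ _
    have h1 := h (fun z => Fin.snoc (x z) 0) (by
        rw [differentiable_pi] at hx ⊢
        intro i
        refine Fin.lastCases ?_ (fun j => ?_) i
        · simp only [Fin.snoc_last]
          exact differentiable_const _
        · simp only [Fin.snoc_castSucc]
          exact hx j) (by
        intro z h0
        apply hx0 z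
        funext i
        have := congrFun h0 (Fin.castSucc i)
        rw [Fin.snoc_castSucc] at this
        exact this) (by
        rintro z -
        rw [eval₂_cov, eval₂_AA, Fin.snoc_last, zero_pow (by positivity), hsn]
        rw [sub_neg_eq_add, zero_add]
        apply sum_eq_zero
        intro l _
        have h4 : ∀ g : ι × Fin (n + 1) × Fin (n + 1) → ℂ, (∀ j, g j = 0) → lf φ l g = 0 := by
          intro g hg
          unfold lf
          exact sum_eq_zero fun j _ => by rw [hg j, zero_mul]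
        rw [h4 _ (fun j => by rw [hxF z j.1]; ring), zero_pow (by omega), mul_zero])
    intro z z'
    obtain ⟨a, ha⟩ := h1 z z'
    refine ⟨a, ?_⟩
    funext i
    have := congrFun ha (Fin.castSucc i)
    simpa only [Fin.snoc_castSucc, Pi.smul_apply] using this
  · intro hyp f hf hf0 hfG
    rcases cover_curve F d φ M D c σ hF hM hD hD1 hc f hf hf0 (fun z => hfG z ()) with h1 | h1
    · exact h1
    · have hx : Differentiable ℂ (fun z => fun i : Fin (n + 1) => f z (Fin.castSucc i)) := by
        rw [differentiable_pi] at hf ⊢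
        exact fun i => hf _
      intro z z'
      obtain ⟨a, ha⟩ := hyp (fun z i => f z (Fin.castSucc i)) hx (by
        intro z h0
        apply hf0 z
        funext i
        refine Fin.lastCases ?_ (fun j => ?_) i
        · exact (h1 z).1
        · exact congrFun h0 j) (fun z i => (h1 z).2 i) z z'
      refine ⟨a, ?_⟩
      funext i
      refine Fin.lastCases ?_ (fun j => ?_) i
      · rw [Pi.smul_apply, (h1 z).1, (h1 z').1, smul_zero]
      · exact congrFun ha j

/-- If `w₀ ^ D + ∑ c l * w l ^ D` has no zero over `K`, then the points of the cyclic cover over `K` are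
the points of `X`. -/
theorem cover_pts (σ : K →+* ℂ) (hM : m ≤ M) (hD1 : 1 ≤ D)
    (han : ∀ (a : K) (b : Fin M → K), a ^ D + ∑ l, c l * b l ^ D = 0 → a = 0 ∧ ∀ l, b l = 0)
    (y : Fin (n + 2) → K) (hy : y ≠ 0) :
    eval y (cov (D * (1 + ∑ i, d i)) (AA F d φ M D c)) = 0 ↔
      y (Fin.last (n + 1)) = 0 ∧ ∀ i, eval (fun j => y (Fin.castSucc j)) (F i) = 0 := by
  classical
  have h1 : ∀ {k : ℕ} (z : Fin k → K) (P : MvPolynomial (Fin k) K),
      eval z P = eval₂ (RingHom.id K) z P := fun z P => rfl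
  rw [h1, eval₂_cov, eval₂_AA, sub_neg_eq_add]
  constructor
  · intro h
    rw [mul_comm D, pow_mul] at h
    obtain ⟨h2, h3⟩ := han _ _ h
    have hw : y (Fin.last (n + 1)) = 0 := pow_eq_zero_iff (by omega) |>.1 h2
    refine ⟨hw, ?_⟩
    set x : Fin (n + 1) → K := fun i => y (Fin.castSucc i) with hx
    let g : (ι × Fin (n + 1) × Fin (n + 1)) → K := fun j =>
      eval₂ (RingHom.id K) x (F j.1) * x j.2.1 ^ (∑ i, d i - d j.1) * x j.2.2
    have hg : ∀ j, g j = 0 := by
      by_contra hcon
      have h4 : (fun j => σ (g j)) ≠ 0 := by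
        intro h5
        apply hcon
        intro j
        exact (map_eq_zero σ).1 (congrFun h5 j)
      have h5 := lf_roots φ h4 (Finset.range M) (by
        intro l hl
        have h6 := h3 ⟨l, Finset.mem_range.1 hl⟩
        have h7 : σ (lf φ l g) = lf φ l (fun j => σ (g j)) := by
          unfold lf
          rw [map_sum]
          apply sum_congr rfl
          intro j _
          rw [map_mul, map_pow, map_pow, map_ofNat]
        rw [← h7]
        have h8 : lf φ l g = 0 := h6
        rw [h8, map_zero])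
      rw [Finset.card_range] at h5
      omega
    have hx0 : ∃ k, x k ≠ 0 := by
      by_contra hcon
      push Not at hcon
      apply hy
      funext i
      refine Fin.lastCases ?_ (fun j => ?_) i
      · exact hw
      · exact hcon j
    obtain ⟨k, hk⟩ := hx0
    intro i
    have h4 := hg (i, k, k)
    simp only [g] at h4
    rcases mul_eq_zero.1 h4 with h5 | h5
    · rcases mul_eq_zero.1 h5 with h6 | h6
      · exact h6
      · exact absurd h6 (pow_ne_zero _ hk)
    · exact absurd h5 hk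
  · rintro ⟨h2, h3⟩
    rw [h2, zero_pow (by positivity), zero_add]
    apply sum_eq_zero
    intro l _
    have h4 : lf φ l (fun j : ι × Fin (n + 1) × Fin (n + 1) =>
        eval₂ (RingHom.id K) (fun i => y (Fin.castSucc i)) (F j.1) *
          y (Fin.castSucc j.2.1) ^ (∑ i, d i - d j.1) * y (Fin.castSucc j.2.2)) = 0 := by
      unfold lf
      apply sum_eq_zero
      intro j _
      have h5 : eval₂ (RingHom.id K) (fun i => y (Fin.castSucc i)) (F j.1) = 0 := h3 j.1
      beta_reduce
      rw [h5]; ring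
    rw [h4, zero_pow (by omega), mul_zero]

end

end Pool.Agent.N254.HY
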