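import Pool.Agent.N254.HY.Cover
import Pool.Agent.N254.HY.Aniso
import Pool.Agent.Helper413.Quad.Hom

/-!
Reduction of the statement on rational points of hyperbolic projective varieties to cyclic covers of
projective spaces.
-/

set_option autoImplicit false

namespace Pool.Agent.N254.HY

open MvPolynomial Finset
open scoped LinearAlgebra.Projectivization

/-- the form `∑ c l * (h l) ^ D` -/
noncomputable def diag {K : Type} [Field K] {n M : ℕ} (D : ℕ) (c : Fin M → K)
    (h : Fin M → MvPolynomial (Fin (n + 1)) K) : MvPolynomial (Fin (n + 1)) K :=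
  ∑ l, C (c l) * h l ^ D

/-- the rational points -/
def pts {K : Type} [Field K] {ι : Type} {n : ℕ} (F : ι → MvPolynomial (Fin (n + 1)) K) :
    Set (ℙ K (Fin (n + 1) → K)) := {P | ∀ i, eval P.rep (F i) = 0}

theorem diag_hom {K : Type} [Field K] {n M D e : ℕ} {c : Fin M → K}
    {h : Fin M → MvPolynomial (Fin (n + 1)) K} (hh : ∀ l, (h l).IsHomogeneous e) :
    (diag D c h).IsHomogeneous (D * e) := by
  unfold diag
  apply IsHomogeneous.sum
  intro l _
  have h4 := (isHomogeneous_C (Fin (n + 1)) (c l)).mul ((hh l).pow D)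
  have h5 : 0 + e * D = D * e := by ring
  rw [h5] at h4
  exact h4

/-- a curve in `P^(n+1)` with last coordinate zero -/
theorem hyp_of_cov {K : Type} [Field K] (σ : K →+* ℂ) {n N : ℕ} (hN : 1 ≤ N)
    {A : MvPolynomial (Fin (n + 1)) K} (h : Hyp σ (fun _ : Unit => cov N A)) :
    Hyp σ (fun _ : Unit => A) := by
  intro x hx hx0 hxA
  have h1 := h (fun z => Fin.snoc (x z) 0) (by
      rw [differentiable_pi] at hx ⊢
      intro i
      refine Fin.lastCases ?_ (fun j => ?_) i
      · simp only [Fin.snoc_last]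
        exact differentiable_const _
      · simp only [Fin.snoc_castSucc]
        exact hx j) (by
      intro z h0
      apply hx0 z
      funext i
      have := congrFun h0 (Fin.castSucc i)
      rw [Fin.snoc_castSucc] at this
      exact this) (by
      rintro z -
      have hsn : (fun i => (Fin.snoc (x z) 0 : Fin (n + 2) → ℂ) (Fin.castSucc i)) = x z :=
        funext fun i => Fin.snoc_castSucc _ _ _
      rw [eval₂_cov, Fin.snoc_last, zero_pow (by omega), hsn, hxA z (), sub_zero])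
  intro z z'
  obtain ⟨a, ha⟩ := h1 z z'
  refine ⟨a, ?_⟩
  funext i
  have := congrFun ha (Fin.castSucc i)
  simpa only [Fin.snoc_castSucc, Pi.smul_apply] using this

theorem main (K : Type) [Field K] [NumberField K] (n : ℕ) (ι : Type) [Finite ι]
    (F : ι → MvPolynomial (Fin (n + 1)) K) (hF : ∀ i, ∃ d, (F i).IsHomogeneous d) :
    ∃ (M e : ℕ) (c : Fin M → K) (h : Fin M → MvPolynomial (Fin (n + 1)) K), 1 ≤ e ∧
      (∀ l, c l ≠ 0) ∧ (∀ l, (h l).IsHomogeneous e) ∧ ∀ D, (M + 1) ^ 2 ≤ D →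
      (∀ y : Fin (n + 2) → K, y ≠ 0 → (eval y (cov (D * e) (diag D c h)) = 0 ↔
        y (Fin.last (n + 1)) = 0 ∧ ∀ i, eval (fun j => y (Fin.castSucc j)) (F i) = 0)) ∧
      ∀ σ : K →+* ℂ,
        (∀ f : ℂ → Fin (n + 2) → ℂ, Differentiable ℂ f → (∀ z, f z ≠ 0) →
          (∀ z, eval₂ σ (f z) (cov (D * e) (diag D c h)) = 0) →
          (∀ z w, ∃ a : ℂ, f z = a • f w) ∨ ∀ z, f z (Fin.last (n + 1)) = 0 ∧
            ∀ i, eval₂ σ (fun j => f z (Fin.castSucc j)) (F i) = 0) ∧
        (Hyp σ (fun _ : Unit => cov (D * e) (diag D c h)) ↔ Hyp σ F) := by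
  classical
  have := Fintype.ofFinite ι
  choose d hd using hF
  obtain ⟨p, hp0, hp⟩ := aniso K
  let m : ℕ := Fintype.card (ι × Fin (n + 1) × Fin (n + 1))
  let φ : (ι × Fin (n + 1) × Fin (n + 1)) ≃ Fin m := Fintype.equivFin _
  let M : ℕ := m ^ 3 + 3 * m
  have hmM : m ≤ M := by
    have : m ≤ 3 * m := by omega
    exact this.trans (Nat.le_add_left _ _)
  have hdiag : ∀ D, AA F d φ M D (fun l => p ^ ((l : ℕ) + 1)) =
      diag D (fun l : Fin M => -p ^ ((l : ℕ) + 1)) (fun l => lf φ l (gg F d)) := by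
    intro D
    unfold AA diag
    rw [← sum_neg_distrib]
    apply sum_congr rfl
    intro l _
    rw [map_neg]
    ring
  have hlf : ∀ l : ℕ, (lf φ l (gg F d)).IsHomogeneous (1 + ∑ i, d i) := by
    intro l
    unfold lf
    apply IsHomogeneous.sum
    intro j _
    have h2 : (((2 : MvPolynomial (Fin (n + 1)) K) ^ (m + 2) ^ (l : ℕ)) ^ (φ j : ℕ)) =
        C ((2 ^ (m + 2) ^ (l : ℕ)) ^ (φ j : ℕ)) := by
      rw [C_pow, C_pow]; rfl
    rw [h2]
    have h3 := (gg_hom F d hd j).mul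
      (isHomogeneous_C (Fin (n + 1)) (((2 : K) ^ (m + 2) ^ (l : ℕ)) ^ (φ j : ℕ)))
    simpa using h3
  refine ⟨M, 1 + ∑ i, d i, fun l : Fin M => -p ^ ((l : ℕ) + 1), fun l => lf φ l (gg F d),
    by omega, fun l => neg_ne_zero.2 (pow_ne_zero _ hp0), fun l => hlf l, fun D hD => ?_⟩
  have hD2 : M ^ 2 ≤ D := (Nat.pow_le_pow_left (by omega) 2).trans hD
  have hMD : M < D := by nlinarith
  have hD1 : 1 ≤ D := by omega
  rw [← hdiag]
  refine ⟨fun y hy => ?_, fun σ => ⟨?_, ?_⟩⟩
  · obtain ⟨σ⟩ : Nonempty (K →+* ℂ) := inferInstance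
    exact cover_pts F d φ M D _ σ hmM hD1 (hp M D hMD) y hy
  · intro f hf hf0 hfG
    exact cover_curve F d φ M D _ σ hd le_rfl hD2 hD1 (fun l => pow_ne_zero _ hp0) f hf hf0 hfG
  · exact cover_hyp F d φ M D _ σ hd le_rfl hD2 hD1 (fun l => pow_ne_zero _ hp0)

/-- membership of the point with the coordinates `x` -/
theorem mem_pts {K : Type} [Field K] {ι : Type} {n : ℕ} {F : ι → MvPolynomial (Fin (n + 1)) K}
    (hF : ∀ i, ∃ d, (F i).IsHomogeneous d) (x : Fin (n + 1) → K) (hx : x ≠ 0) :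
    Projectivization.mk K x hx ∈ pts F ↔ ∀ i, eval x (F i) = 0 := by
  obtain ⟨a, ha⟩ := Projectivization.exists_smul_eq_mk_rep K x hx
  have key : ∀ i, eval (Projectivization.mk K x hx).rep (F i) = 0 ↔ eval x (F i) = 0 := by
    intro i
    obtain ⟨d, hd⟩ := hF i
    have h1 := eval₂_smul_hom (RingHom.id K) hd (a : K) x
    have h2 : (Projectivization.mk K x hx).rep = fun j => (a : K) * x j := by
      rw [← ha]; rfl
    have h3 : ∀ (z : Fin (n + 1) → K), eval z (F i) = eval₂ (RingHom.id K) z (F i) :=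
      fun _ => rfl
    rw [h2, h3, h1, h3]
    constructor
    · intro h
      exact (mul_eq_zero.1 h).resolve_left (pow_ne_zero _ a.ne_zero)
    · intro h
      rw [h, mul_zero]
  exact forall_congr' key

/-- the points of `X` are finite in number if those of the cover are -/
theorem finite_of_cov {K : Type} [Field K] {ι : Type} {n N : ℕ}
    {F : ι → MvPolynomial (Fin (n + 1)) K} {G : MvPolynomial (Fin (n + 2)) K}
    (hG : G.IsHomogeneous N)
    (h : ∀ y : Fin (n + 2) → K, y ≠ 0 → (eval y G = 0 ↔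
      y (Fin.last (n + 1)) = 0 ∧ ∀ i, eval (fun j => y (Fin.castSucc j)) (F i) = 0))
    (hfin : (pts (fun _ : Unit => G)).Finite) : (pts F).Finite := by
  classical
  have hsn : ∀ x : Fin (n + 1) → K, x ≠ 0 → (Fin.snoc x 0 : Fin (n + 2) → K) ≠ 0 := by
    intro x hx h0
    apply hx
    funext i
    have := congrFun h0 (Fin.castSucc i)
    rw [Fin.snoc_castSucc] at this
    exact this
  let g : ℙ K (Fin (n + 1) → K) → ℙ K (Fin (n + 2) → K) := fun P =>
    Projectivization.mk K (Fin.snoc P.rep 0) (hsn P.rep P.rep_nonzero)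
  refine Set.Finite.of_finite_image (hfin.subset ?_) (f := g) ?_
  · rintro _ ⟨P, hP, rfl⟩
    rw [mem_pts (fun _ => ⟨N, hG⟩)]
    rintro -
    rw [h _ (hsn P.rep P.rep_nonzero)]
    refine ⟨Fin.snoc_last _ _, fun i => ?_⟩
    have h1 : (fun j => (Fin.snoc P.rep 0 : Fin (n + 2) → K) (Fin.castSucc j)) = P.rep :=
      funext fun j => Fin.snoc_castSucc _ _ _
    rw [h1]
    exact hP i
  · intro P _ Q _ hPQ
    simp only [g] at hPQ
    rw [Projectivization.mk_eq_mk_iff'] at hPQ
    obtain ⟨a, ha⟩ := hPQ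
    rw [← P.mk_rep, ← Q.mk_rep, Projectivization.mk_eq_mk_iff']
    refine ⟨a, ?_⟩
    funext i
    have := congrFun ha (Fin.castSucc i)
    simpa only [Fin.snoc_castSucc, Pi.smul_apply] using this

theorem cov_ne_zero {K : Type} [Field K] {n N : ℕ} (hN : 1 ≤ N)
    {A : MvPolynomial (Fin (n + 1)) K} (hA : A.IsHomogeneous N) : cov N A ≠ 0 := by
  intro h0
  have h1 := congrArg (eval (Fin.snoc (0 : Fin (n + 1) → K) 1 : Fin (n + 2) → K)) h0
  have h2 : eval (Fin.snoc (0 : Fin (n + 1) → K) 1 : Fin (n + 2) → K) (cov N A) =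
      eval₂ (RingHom.id K) (Fin.snoc (0 : Fin (n + 1) → K) 1 : Fin (n + 2) → K) (cov N A) := rfl
  rw [map_zero, h2, eval₂_cov, Fin.snoc_last, one_pow] at h1
  have h3 : (fun i => (Fin.snoc (0 : Fin (n + 1) → K) 1 : Fin (n + 2) → K) (Fin.castSucc i)) =
      fun i => (0 : K) * (0 : Fin (n + 1) → K) i := by
    funext i
    rw [Fin.snoc_castSucc]
    simp
  rw [h3, eval₂_smul_hom _ hA, zero_pow (by omega), zero_mul, sub_zero] at h1
  exact one_ne_zero h1

/-- reduction to irreducible hypersurfaces -/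
theorem finite_irred {K : Type} [Field K] (σ : K →+* ℂ)
    (H : ∀ (n d : ℕ) (G : MvPolynomial (Fin (n + 1)) K), Irreducible G → G.IsHomogeneous d →
      Hyp σ (fun _ : Unit => G) → (pts (fun _ : Unit => G)).Finite)
    {n N : ℕ} {G : MvPolynomial (Fin (n + 1)) K} (hG0 : G ≠ 0) (hG : G.IsHomogeneous N)
    (hyp : Hyp σ (fun _ : Unit => G)) : (pts (fun _ : Unit => G)).Finite := by
  classical
  obtain ⟨s, hs, u, hu⟩ := UniqueFactorizationMonoid.exists_prime_factors G hG0
  -- every factor is homogeneous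
  have hdvd : ∀ p ∈ s, ∃ q, G = p * q := by
    intro p hp
    obtain ⟨q, hq⟩ := Multiset.dvd_prod hp
    exact ⟨q * u, by rw [← hu, hq]; ring⟩
  have hfin : ∀ p ∈ s, (pts (fun _ : Unit => p)).Finite := by
    intro p hp
    obtain ⟨q, hq⟩ := hdvd p hp
    obtain ⟨a, b, ha, -, -⟩ := Pool.Agent.Helper413.Quad.isHomogeneous_of_mul
      (f := p) (g := q) (by rw [← hq]; exact hG0) (by rw [← hq]; exact hG)
    refine H n a p (hs p hp).irreducible ha ?_
    intro f hf hf0 hfp
    refine hyp f hf hf0 ?_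
    rintro z -
    beta_reduce
    rw [hq, eval₂_mul, hfp z (), zero_mul]
  have hcov : pts (fun _ : Unit => G) ⊆ ⋃ p ∈ s.toFinset, pts (fun _ : Unit => p) := by
    intro P hP
    have h1 : eval P.rep G = 0 := hP ()
    rw [← hu, map_mul, map_multiset_prod] at h1
    have h2 : (Multiset.map (eval P.rep) s).prod = 0 :=
      (mul_eq_zero.1 h1).resolve_right ((u.isUnit.map (eval P.rep)).ne_zero)
    obtain ⟨p, hp, hp0⟩ := Multiset.mem_map.1 (Multiset.prod_eq_zero_iff.1 h2)
    simp only [Set.mem_iUnion]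
    exact ⟨p, Multiset.mem_toFinset.2 hp, fun _ => hp0⟩
  exact (Set.Finite.biUnion (Finset.finite_toSet _)
    (fun p hp => hfin p (Multiset.mem_toFinset.1 (Finset.mem_coe.1 hp)))).subset hcov

end Pool.Agent.N254.HY
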