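import Mathlib

/-!
A system of integers `2 ^ (K ^ l)` such that a polynomial in two variables of small degree that
vanishes at many disjoint pairs of them is zero.
-/

set_option autoImplicit false

namespace Pool.Agent.N254.HY

open Finset

/-- digits in base `K` are unique -/
theorem digits_inj (K : ℕ) : ∀ (n : ℕ) (a b : ℕ → ℕ), (∀ p < n, a p < K) → (∀ p < n, b p < K) →
    ∑ p ∈ range n, a p * K ^ p = ∑ p ∈ range n, b p * K ^ p → ∀ p < n, a p = b p := by
  have key : ∀ (n : ℕ) (c : ℕ → ℕ), (∀ p < n, c p < K) → ∑ p ∈ range n, c p * K ^ p < K ^ n := by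
    intro n
    induction n with
    | zero => intro c _; simp
    | succ n ih =>
      intro c hc
      rw [sum_range_succ, pow_succ]
      have h1 := ih c (fun p hp => hc p (by omega))
      have h2 : c n + 1 ≤ K := hc n (by omega)
      calc ∑ p ∈ range n, c p * K ^ p + c n * K ^ n < K ^ n + c n * K ^ n := by omega
        _ = (c n + 1) * K ^ n := by ring
        _ ≤ K * K ^ n := Nat.mul_le_mul_right _ h2
        _ = K ^ n * K := by ring
  intro n
  induction n with
  | zero => intro a b _ _ _ p hp; omega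
  | succ n ih =>
    intro a b ha hb h
    have hK : 0 < K := lt_of_le_of_lt (Nat.zero_le _) (ha n (by omega))
    have hpos : 0 < K ^ n := pow_pos hK n
    have h1 := key n a (fun p hp => ha p (by omega))
    have h2 := key n b (fun p hp => hb p (by omega))
    rw [sum_range_succ, sum_range_succ] at h
    have hn : a n = b n := by
      have e1 : (∑ p ∈ range n, a p * K ^ p + a n * K ^ n) / K ^ n = a n := by
        rw [Nat.add_mul_div_right _ _ hpos, Nat.div_eq_of_lt h1, zero_add]
      have e2 : (∑ p ∈ range n, b p * K ^ p + b n * K ^ n) / K ^ n = b n := by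
        rw [Nat.add_mul_div_right _ _ hpos, Nat.div_eq_of_lt h2, zero_add]
      rw [← e1, ← e2, h]
    rw [hn] at h
    have h3 := ih a b (fun p hp => ha p (by omega)) (fun p hp => hb p (by omega))
      (Nat.add_right_cancel h)
    intro p hp
    rcases Nat.lt_succ_iff_lt_or_eq.1 hp with h4 | h4
    · exact h3 p h4
    · rw [h4]; exact hn

/-- uniqueness of digits at arbitrary different places -/
theorem digits_inj' {J : Type} [Fintype J] (K : ℕ) (w : J → ℕ) (hw : Function.Injective w)
    (a b : J → ℕ) (ha : ∀ j, a j < K) (hb : ∀ j, b j < K)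
    (h : ∑ j, a j * K ^ w j = ∑ j, b j * K ^ w j) : a = b := by
  classical
  funext j0
  have hK : 0 < K := lt_of_le_of_lt (Nat.zero_le _) (ha j0)
  let n : ℕ := (univ.sup w) + 1
  have hn : ∀ j, w j < n := fun j => Nat.lt_succ_of_le (le_sup (f := w) (mem_univ j))
  have key : ∀ c : J → ℕ, ∑ p ∈ range n, Function.extend w c 0 p * K ^ p =
      ∑ j, c j * K ^ w j := by
    intro c
    have h1 : ∑ j, c j * K ^ w j = ∑ p ∈ univ.image w, Function.extend w c 0 p * K ^ p := by
      rw [sum_image (fun x _ y _ hxy => hw hxy)]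
      exact sum_congr rfl fun j _ => by rw [hw.extend_apply]
    rw [h1]
    symm
    apply sum_subset
    · intro p hp
      obtain ⟨j, -, rfl⟩ := mem_image.1 hp
      exact mem_range.2 (hn j)
    · intro p _ hp
      rw [Function.extend_apply' _ _ _ (by
        rintro ⟨j, rfl⟩
        exact hp (mem_image_of_mem _ (mem_univ j)))]
      simp
  have hlt : ∀ c : J → ℕ, (∀ j, c j < K) → ∀ p < n, Function.extend w c 0 p < K := by
    intro c hc p _
    by_cases hp : ∃ j, w j = p
    · obtain ⟨j, rfl⟩ := hp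
      rw [hw.extend_apply]; exact hc j
    · rw [Function.extend_apply' _ _ _ hp]; simpa using hK
  have h2 := digits_inj K n (Function.extend w a 0) (Function.extend w b 0) (hlt a ha) (hlt b hb)
    (by rw [key, key]; exact h) (w j0) (hn j0)
  rwa [hw.extend_apply, hw.extend_apply] at h2

theorem signed_sum_ne {α : Type} [Fintype α] [Nonempty α] (ε : α → ℤ)
    (hε : ∀ x, ε x = 1 ∨ ε x = -1) (E : α → ℕ) (hE : Function.Injective E) :
    ∑ x, ε x * 2 ^ (E x) ≠ 0 := by
  classical
  obtain ⟨x0, hx0⟩ := Finite.exists_min E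
  intro h
  rw [← add_sum_erase _ _ (mem_univ x0)] at h
  have h1 : (2 : ℤ) ^ (E x0 + 1) ∣ ∑ x ∈ univ.erase x0, ε x * 2 ^ (E x) := by
    apply dvd_sum
    intro x hx
    apply Dvd.dvd.mul_left
    apply pow_dvd_pow
    have h2 := hx0 x
    have h3 : E x0 ≠ E x := fun h4 => (mem_erase.1 hx).1 (hE h4).symm
    omega
  have h2 : (2 : ℤ) ^ (E x0 + 1) ∣ ε x0 * 2 ^ (E x0) := by
    have h3 : ε x0 * 2 ^ (E x0) = -∑ x ∈ univ.erase x0, ε x * 2 ^ (E x) := by linarith
    rw [h3]
    exact (dvd_neg.2 h1)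
  have h3 : (2 : ℤ) ^ (E x0 + 1) ∣ 2 ^ (E x0) := by
    rcases hε x0 with h4 | h4
    · rwa [h4, one_mul] at h2
    · rw [h4, neg_one_mul, dvd_neg] at h2
      exact h2
  have h4 := (pow_dvd_pow_iff (a := (2 : ℤ)) (by norm_num) (by
    intro h5
    rcases Int.isUnit_iff.1 h5 with h6 | h6 <;> norm_num at h6)).1 h3
  omega

section

variable {m K : ℕ}

/-- the matrix of the values of the monomials at the pairs -/
def mat (m K : ℕ) (u v : Fin m × Fin m → ℕ) : Matrix (Fin m × Fin m) (Fin m × Fin m) ℤ :=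
  fun r c => 2 ^ ((c.1 : ℕ) * K ^ u r + (c.2 : ℕ) * K ^ v r)

theorem mat_det (hmK : m ≤ K) (u v : Fin m × Fin m → ℕ)
    (huv : Function.Injective (Sum.elim u v)) : (mat m K u v).det ≠ 0 := by
  classical
  rw [Matrix.det_apply]
  have h1 : ∑ σ : Equiv.Perm (Fin m × Fin m), Equiv.Perm.sign σ •
      ∏ c, mat m K u v (σ c) c = ∑ σ : Equiv.Perm (Fin m × Fin m),
        ((Equiv.Perm.sign σ : ℤˣ) : ℤ) *
          2 ^ (∑ c, ((c.1 : ℕ) * K ^ u (σ c) + (c.2 : ℕ) * K ^ v (σ c))) := by
    apply sum_congr rfl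
    intro σ _
    rw [← prod_pow_eq_pow_sum, Units.smul_def, smul_eq_mul]
    rfl
  rw [h1]
  apply signed_sum_ne
  · intro σ
    rcases Int.units_eq_one_or (Equiv.Perm.sign σ) with h | h <;> rw [h] <;> simp
  · intro σ τ hστ
    have key : ∀ ρ : Equiv.Perm (Fin m × Fin m),
        ∑ c, ((c.1 : ℕ) * K ^ u (ρ c) + (c.2 : ℕ) * K ^ v (ρ c)) =
        ∑ x : (Fin m × Fin m) ⊕ (Fin m × Fin m),
          Sum.elim (fun r => ((ρ.symm r).1 : ℕ)) (fun r => ((ρ.symm r).2 : ℕ)) x *
            K ^ Sum.elim u v x := by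
      intro ρ
      rw [Fintype.sum_sum_type]
      simp only [Sum.elim_inl, Sum.elim_inr]
      have e := Equiv.sum_comp ρ
        (fun r => ((ρ.symm r).1 : ℕ) * K ^ u r + ((ρ.symm r).2 : ℕ) * K ^ v r)
      rw [← sum_add_distrib, ← e]
      simp only [Equiv.symm_apply_apply]
    beta_reduce at hστ
    rw [key σ, key τ] at hστ
    have h2 := digits_inj' K (Sum.elim u v) huv _ _ (by
      rintro (r | r)
      · exact lt_of_lt_of_le (σ.symm r).1.2 hmK
      · exact lt_of_lt_of_le (σ.symm r).2.2 hmK) (by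
      rintro (r | r)
      · exact lt_of_lt_of_le (τ.symm r).1.2 hmK
      · exact lt_of_lt_of_le (τ.symm r).2.2 hmK) hστ
    have h3 : σ.symm = τ.symm := by
      ext r
      · have := congrFun h2 (Sum.inl r)
        simpa using this
      · have := congrFun h2 (Sum.inr r)
        simpa using this
    rw [← Equiv.symm_symm σ, h3, Equiv.symm_symm]

/-- A polynomial in two variables of degree less than `m` in each of them which vanishes at `m ^ 2`
pairs `(2 ^ K ^ u r, 2 ^ K ^ v r)`, all `u r`, `v r` different, is zero. -/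
theorem pairs_indep (hmK : m ≤ K) (u v : Fin m × Fin m → ℕ)
    (huv : Function.Injective (Sum.elim u v)) (B : Fin m → Fin m → ℂ)
    (h : ∀ r, ∑ a, ∑ b, B a b * ((2 : ℂ) ^ K ^ u r) ^ (a : ℕ) * ((2 : ℂ) ^ K ^ v r) ^ (b : ℕ) = 0) :
    ∀ a b, B a b = 0 := by
  classical
  have hdet : ((mat m K u v).map (Int.castRingHom ℂ)).det ≠ 0 := by
    rw [← RingHom.mapMatrix_apply, ← RingHom.map_det]
    have := mat_det hmK u v huv
    simpa using this
  have h0 : ((mat m K u v).map (Int.castRingHom ℂ)).mulVec (fun c => B c.1 c.2) = 0 := by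
    funext r
    have h1 := h r
    rw [Pi.zero_apply, ← h1, Matrix.mulVec, dotProduct, Fintype.sum_prod_type]
    apply sum_congr rfl
    intro a _
    apply sum_congr rfl
    intro b _
    simp only [Matrix.map_apply, mat]
    push_cast
    rw [← pow_mul, ← pow_mul, pow_add]
    simp only [eq_intCast, Int.cast_mul, Int.cast_pow, Int.cast_ofNat]
    rw [mul_comm (a : ℕ), mul_comm (b : ℕ)]
    ring
  have h1 := Matrix.eq_zero_of_mulVec_eq_zero hdet h0
  intro a b
  exact congrFun h1 (a, b)

end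

end Pool.Agent.N254.HY
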