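import Pool.Agent.H159R3.NV.Final

/-!
If a sum of `N`-th powers of entire functions vanishes and `N` is large, then each function which is
not zero is proportional to another one.
-/

set_option autoImplicit false

namespace Pool.Agent.N254.HY

open Finset

theorem partner {J : Type} [Fintype J] [DecidableEq J] {N : ℕ}
    (hN : (Fintype.card J - 1) ^ 2 ≤ N) (hN1 : 1 ≤ N) (h : J → ℂ → ℂ)
    (hd : ∀ j, Differentiable ℂ (h j))
    (c : J → ℂ) (hc : ∀ j, c j ≠ 0) (hs : ∀ z, ∑ j, c j * h j z ^ N = 0) (l : J)
    (hl : ∃ z, h l z ≠ 0) :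
    ∃ l', l' ≠ l ∧ ∃ a : ℂ, a ≠ 0 ∧ ∀ z, h l' z = a * h l z := by
  classical
  by_contra hcon
  push Not at hcon
  -- maximal sets of functions which are not zero and not proportional to each other
  let P : Finset J → Prop := fun S => l ∈ S ∧ (∀ i ∈ S, ∃ z, h i z ≠ 0) ∧
    ∀ i ∈ S, ∀ j ∈ S, i ≠ j → ∀ c : ℂ, ∃ z, h i z - c * h j z ≠ 0
  obtain ⟨S, hS, hmax⟩ : ∃ S : Finset J, P S ∧ ∀ S', P S' → S'.card ≤ S.card := by
    have hfin : (univ.filter P : Finset (Finset J)).Nonempty := by
      refine ⟨{l}, ?_⟩
      rw [mem_filter]
      refine ⟨mem_univ _, mem_singleton_self l, ?_, ?_⟩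
      · intro i hi; rw [mem_singleton.1 hi]; exact hl
      · intro i hi j hj hij
        exact absurd ((mem_singleton.1 hi).trans (mem_singleton.1 hj).symm) hij
    obtain ⟨S, hS, hS'⟩ := exists_max_image (univ.filter P) card hfin
    exact ⟨S, (mem_filter.1 hS).2, fun S' h' => hS' S' (mem_filter.2 ⟨mem_univ _, h'⟩)⟩
  obtain ⟨hlS, hne, hprop⟩ := hS
  -- representatives
  have hrep : ∀ j, ∃ r ∈ S, ∃ b : ℂ, (∀ z, h j z = b * h r z) ∧ (j ∈ S → r = j ∧ b = 1) ∧
      (j ≠ l → r = l → b = 0) := by
    intro j
    by_cases hj : j ∈ S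
    · exact ⟨j, hj, 1, fun z => (one_mul _).symm, fun _ => ⟨rfl, rfl⟩, fun h1 h2 => absurd h2 h1⟩
    · by_cases h0 : ∀ z, h j z = 0
      · exact ⟨l, hlS, 0, fun z => by rw [h0, zero_mul], fun h1 => absurd h1 hj, fun _ _ => rfl⟩
      · push Not at h0
        obtain ⟨z0, hz0⟩ := h0
        -- proportional to an element of S
        have h1 : ¬ P (insert j S) := by
          intro h2
          have h3 := hmax _ h2
          rw [card_insert_of_notMem hj] at h3
          omega
        have h2 : ∃ i ∈ S, ∃ b : ℂ, ∀ z, h j z = b * h i z := by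
          by_contra h3
          push Not at h3
          apply h1
          refine ⟨mem_insert_of_mem hlS, ?_, ?_⟩
          · intro i hi
            rcases mem_insert.1 hi with rfl | hi
            · exact ⟨z0, hz0⟩
            · exact hne i hi
          · intro i hi k hk hik b
            rcases mem_insert.1 hi with hi' | hi'
            · rcases mem_insert.1 hk with hk' | hk'
              · exact absurd (hi'.trans hk'.symm) hik
              · obtain ⟨z, hz⟩ := h3 k hk' b
                rw [hi']
                exact ⟨z, sub_ne_zero.2 hz⟩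
            · rcases mem_insert.1 hk with hk' | hk'
              · by_contra h4
                push Not at h4
                have hb : b ≠ 0 := by
                  rintro rfl
                  obtain ⟨z, hz⟩ := hne i hi'
                  have := h4 z
                  rw [zero_mul, sub_zero] at this
                  exact hz this
                obtain ⟨z, hz⟩ := h3 i hi' b⁻¹
                apply hz
                rw [sub_eq_zero.1 (h4 z), ← mul_assoc, inv_mul_cancel₀ hb, one_mul, hk']
              · exact hprop i hi' k hk' hik b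
        obtain ⟨i, hi, b, hb⟩ := h2
        refine ⟨i, hi, b, hb, fun h1 => absurd h1 hj, ?_⟩
        rintro hjl rfl
        by_contra hb0
        obtain ⟨z, hz⟩ := hcon j hjl b hb0
        exact hz (hb z)
  choose r hr b hb hrS hrl using hrep
  have hkey := Pool.Agent.H159R3.NV.powers_independent (s := Fintype.card J) hN h hd S
    (card_le_univ S) hne hprop (fun i => ∑ j ∈ univ.filter (fun j => r j = i), c j * b j ^ N)
    (by
      intro z
      rw [← hs z, ← sum_fiberwise_of_maps_to (s := univ) (t := S) (g := r) (fun j _ => hr j)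
        (fun j => c j * h j z ^ N)]
      apply sum_congr rfl
      intro i _
      rw [sum_mul]
      apply sum_congr rfl
      intro j hj
      rw [hb j z, (mem_filter.1 hj).2]
      ring) l hlS
  rw [sum_eq_single l] at hkey
  · rw [(hrS l hlS).2, one_pow, mul_one] at hkey
    exact hc l hkey
  · intro j hj hjl
    rw [hrl j hjl (mem_filter.1 hj).2, zero_pow (by omega), mul_zero]
  · intro h1
    exact absurd (mem_filter.2 ⟨mem_univ _, by simp [(hrS l hlS).1]⟩) h1

end Pool.Agent.N254.HY
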