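import Pool.Agent.N254.HY.Pair
import Pool.Agent.N254.HY.Partner

/-!
Entire solutions of `c₀ u₀ ^ N + ∑ c l (L l u) ^ N = 0` for the linear forms `L l` with the
coefficients `t l ^ i`, `t l = 2 ^ K ^ l`: all values are proportional.
-/

set_option autoImplicit false

namespace Pool.Agent.N254.HY

open Finset Polynomial

/-- the linear form with the coefficients `t ^ i`, `t = 2 ^ (m + 2) ^ l` -/
noncomputable def lf {R : Type} [CommSemiring R] {J : Type} [Fintype J] {m : ℕ} (φ : J ≃ Fin m)
    (l : ℕ) (y : J → R) : R := ∑ j, y j * ((2 : R) ^ (m + 2) ^ l) ^ (φ j : ℕ)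

section

variable {J : Type} [Fintype J] {m : ℕ} (φ : J ≃ Fin m)

theorem lf_diff (l : ℕ) (u : ℂ → J → ℂ) (hu : ∀ j, Differentiable ℂ (fun z => u z j)) :
    Differentiable ℂ (fun z => lf φ l (u z)) := by
  unfold lf
  exact Differentiable.fun_sum fun j _ => (hu j).mul_const _

theorem lf_roots {y : J → ℂ} (hy : y ≠ 0) (T : Finset ℕ) (hT : ∀ l ∈ T, lf φ l y = 0) :
    T.card < m := by
  classical
  by_contra hcon
  push Not at hcon
  apply hy
  let P : ℂ[X] := ∑ j, C (y j) * X ^ (φ j : ℕ)
  have hev : ∀ l, P.eval ((2 : ℂ) ^ (m + 2) ^ l) = lf φ l y := by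
    intro l
    simp only [P, lf, eval_finset_sum, eval_mul, eval_C, eval_pow, eval_X]
  have hinj : Function.Injective (fun l : T => ((2 : ℂ) ^ (m + 2) ^ (l : ℕ))) := by
    intro a b hab
    simp only at hab
    have h1 : (2 : ℕ) ^ (m + 2) ^ (a : ℕ) = 2 ^ (m + 2) ^ (b : ℕ) := by exact_mod_cast hab
    have h2 := Nat.pow_right_injective (le_refl 2) h1
    exact Subtype.ext (Nat.pow_right_injective (by omega : 2 ≤ m + 2) h2)
  have hP : P = 0 := by
    apply Polynomial.eq_zero_of_natDegree_lt_card_of_eval_eq_zero P hinj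
    · rintro ⟨l, hl⟩
      rw [hev, hT l hl]
    · rw [Fintype.card_coe]
      rcases Nat.eq_zero_or_pos m with hm | hm
      · exfalso
        apply hy
        funext j
        have := (φ j).2
        omega
      · refine lt_of_lt_of_le ?_ hcon
        refine lt_of_le_of_lt (natDegree_sum_le_of_forall_le (n := m - 1) univ _ fun j _ => ?_)
          (by omega)
        refine (natDegree_C_mul_X_pow_le _ _).trans ?_
        have := (φ j).2
        omega
  funext j
  have h1 : P.coeff (φ j : ℕ) = y j := by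
    simp only [P, finset_sum_coeff, coeff_C_mul, coeff_X_pow]
    rw [sum_eq_single j]
    · simp
    · intro i _ hij
      rw [if_neg, mul_zero]
      intro h
      exact hij (φ.injective (Fin.ext h)).symm
    · intro h; exact absurd (mem_univ j) h
  rw [← h1, hP]
  simp

theorem lf_two (l l' : ℕ) (p q : J → ℂ) :
    ∑ i, ∑ j, (p i * q j - q i * p j) * ((2 : ℂ) ^ (m + 2) ^ l) ^ (φ i : ℕ) *
      ((2 : ℂ) ^ (m + 2) ^ l') ^ (φ j : ℕ) = lf φ l p * lf φ l' q - lf φ l q * lf φ l' p := by
  unfold lf
  rw [sum_mul_sum, sum_mul_sum, ← sum_sub_distrib]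
  apply sum_congr rfl
  intro i _
  rw [← sum_sub_distrib]
  apply sum_congr rfl
  intro j _
  ring

theorem lf_sub (l : ℕ) (a b : ℂ) (p q : J → ℂ) :
    lf φ l (fun j => a * p j - b * q j) = a * lf φ l p - b * lf φ l q := by
  unfold lf
  rw [mul_sum, mul_sum, ← sum_sub_distrib]
  apply sum_congr rfl
  intro j _
  ring

end

theorem tr {x1 x2 y1 y2 z1 z2 : ℂ} (h : ¬ (y1 = 0 ∧ y2 = 0)) (h1 : x1 * y2 = x2 * y1)
    (h2 : y1 * z2 = y2 * z1) : x1 * z2 = x2 * z1 := by
  by_cases hy : y1 = 0
  · have hy2 : y2 ≠ 0 := fun h3 => h ⟨hy, h3⟩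
    rw [hy, mul_zero] at h1
    rw [hy, zero_mul] at h2
    have e1 : x1 = 0 := (mul_eq_zero.1 h1).resolve_right hy2
    have e2 : z1 = 0 := (mul_eq_zero.1 h2.symm).resolve_left hy2
    rw [e1, e2]; ring
  · apply mul_left_cancel₀ hy
    calc y1 * (x1 * z2) = x1 * (y1 * z2) := by ring
      _ = (x1 * y2) * z1 := by rw [h2]; ring
      _ = y1 * (x2 * z1) := by rw [h1]; ring

/-- if `a p = b q` with `(a, b) ≠ 0`, then all minors of `(p, q)` vanish -/
theorem minors {J : Type} {a b : ℂ} {p q : J → ℂ} (h : ¬ (a = 0 ∧ b = 0))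
    (h1 : (fun j => a * p j - b * q j) = 0) (i j : J) : p i * q j = q i * p j := by
  have e : ∀ k, a * p k = b * q k := fun k => sub_eq_zero.1 (congrFun h1 k)
  by_cases ha : a = 0
  · have hb : b ≠ 0 := fun h3 => h ⟨ha, h3⟩
    have hq : ∀ k, q k = 0 := fun k => by
      have := e k
      rw [ha, zero_mul] at this
      exact (mul_eq_zero.1 this.symm).resolve_left hb
    rw [hq i, hq j]; ring
  · apply mul_left_cancel₀ ha
    calc a * (p i * q j) = (a * p i) * q j := by ring
      _ = q i * (b * q j) := by rw [e i]; ring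
      _ = a * (q i * p j) := by rw [← e j]; ring

theorem rank_one {J : Type} [Fintype J] [DecidableEq J] {m : ℕ} (φ : J ≃ Fin m) {M N : ℕ}
    (hM : m ^ 3 + 3 * m ≤ M) (hN : M ^ 2 ≤ N) (hN1 : 1 ≤ N) (c0 : ℂ) (hc0 : c0 ≠ 0)
    (c : Fin M → ℂ) (hc : ∀ l, c l ≠ 0) (u0 : ℂ → ℂ) (u : ℂ → J → ℂ) (hu0 : Differentiable ℂ u0)
    (hu : ∀ j, Differentiable ℂ (fun z => u z j))
    (hs : ∀ z, c0 * u0 z ^ N + ∑ l : Fin M, c l * (lf φ l (u z)) ^ N = 0) (z1 z2 : ℂ) :
    (∀ i j, u z1 i * u z2 j = u z2 i * u z1 j) ∧ ∀ j, u0 z1 * u z2 j = u0 z2 * u z1 j := by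
  classical
  -- partners
  let h : Option (Fin M) → ℂ → ℂ := fun o z => o.elim (u0 z) (fun l => lf φ l (u z))
  have hpart : ∀ o, (∃ z, h o z ≠ 0) → ∃ o', o' ≠ o ∧ ∃ a : ℂ, a ≠ 0 ∧ ∀ z, h o' z = a * h o z := by
    refine partner (N := N) (by simpa using hN) hN1 h ?_ (fun o => o.elim c0 c) ?_ ?_
    · rintro (_ | l)
      · exact hu0
      · exact lf_diff φ l u hu
    · rintro (_ | l)
      · exact hc0
      · exact hc l
    · intro z
      rw [Fintype.sum_option]
      exact hs z
  set p := u z1 with hp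
  set q := u z2 with hq
  set p0 := u0 z1 with hp0
  set q0 := u0 z2 with hq0
  have hfst : ∀ i j, p i * q j = q i * p j := by
    by_contra hcon
    have hind : ∀ a b : ℂ, ¬ (a = 0 ∧ b = 0) → (fun j => a * p j - b * q j) ≠ 0 := by
      intro a b hab h0
      exact hcon (minors hab h0)
    have hm : 1 ≤ m := by
      push Not at hcon
      obtain ⟨i, -, -⟩ := hcon
      have := (φ i).2
      omega
    let α : Fin M → ℂ := fun l => lf φ l p
    let β : Fin M → ℂ := fun l => lf φ l q
    let nz : Fin M → Prop := fun l => ¬ (α l = 0 ∧ β l = 0)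
    -- few vectors are zero
    have count : ∀ (a b : ℂ), ¬ (a = 0 ∧ b = 0) → ∀ T : Finset (Fin M),
        (∀ l ∈ T, a * α l - b * β l = 0) → T.card < m := by
      intro a b hab T hT
      have h1 := lf_roots φ (hind a b hab) (T.map Fin.valEmbedding) (by
        intro l hl
        obtain ⟨l', hl', rfl⟩ := mem_map.1 hl
        rw [lf_sub]
        exact hT l' hl')
      rwa [card_map] at h1
    let Z : Finset (Fin M) := univ.filter (fun l => ¬ nz l)
    have hZ : Z.card < m := by
      apply count 1 0 (by simp) Z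
      intro l hl
      have h1 : ¬ nz l := (mem_filter.1 hl).2
      have h2 : α l = 0 ∧ β l = 0 := not_not.1 h1
      rw [h2.1, h2.2]; ring
    let D : Finset (Fin M) := univ.filter (fun l => nz l ∧ ¬ (p0 = 0 ∧ q0 = 0) ∧
      q0 * α l - p0 * β l = 0)
    have hD : D.card < m := by
      by_cases h0 : p0 = 0 ∧ q0 = 0
      · have : D = ∅ := by
          apply filter_eq_empty_iff.2
          rintro l - ⟨-, h1, -⟩
          exact h1 h0
        rw [this, card_empty]
        omega
      · apply count q0 p0 (fun h1 => h0 ⟨h1.2, h1.1⟩) D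
        intro l hl
        exact (mem_filter.1 hl).2.2.2
    let cls : Fin M → Finset (Fin M) := fun l => univ.filter (fun k => nz k ∧
      β l * α k - α l * β k = 0)
    have hcls : ∀ l, nz l → (cls l).card < m := by
      intro l hl
      apply count (β l) (α l) (fun h1 => hl ⟨h1.2, h1.1⟩)
      intro k hk
      exact (mem_filter.1 hk).2.2
    have hself : ∀ l, nz l → l ∈ cls l := by
      intro l hl
      exact mem_filter.2 ⟨mem_univ _, hl, by ring⟩
    have heq : ∀ l l' k, nz l → nz l' → k ∈ cls l → k ∈ cls l' → cls l = cls l' := by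
      have sub : ∀ l l' k, nz l → nz l' → k ∈ cls l → k ∈ cls l' → cls l ⊆ cls l' := by
        intro l l' k hl hl' hk hk' i hi
        obtain ⟨-, hk1, hk2⟩ := mem_filter.1 hk
        obtain ⟨-, -, hk3⟩ := mem_filter.1 hk'
        obtain ⟨-, hi1, hi2⟩ := mem_filter.1 hi
        refine mem_filter.2 ⟨mem_univ _, hi1, ?_⟩
        rw [sub_eq_zero] at hk2 hk3 hi2 ⊢
        -- l' ~ k ~ l ~ i
        have e1 : β l' * α l = α l' * β l :=
          tr (x1 := β l') (x2 := α l') (y1 := β k) (y2 := α k) (z1 := β l) (z2 := α l)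
            (fun h1 => hk1 ⟨h1.2, h1.1⟩) hk3 (by linear_combination -hk2)
        have := tr (x1 := β l') (x2 := α l') (y1 := β l) (y2 := α l) (z1 := β i) (z2 := α i)
          (fun h1 => hl ⟨h1.2, h1.1⟩) e1 hi2
        exact this
      intro l l' k hl hl' hk hk'
      exact Subset.antisymm (sub l l' k hl hl' hk hk') (sub l' l k hl' hl hk' hk)
    let S : Finset (Fin M) := univ.filter (fun l => l ∉ Z ∧ l ∉ D)
    have hScard : M ≤ S.card + 2 * m := by
      have h1 : (univ : Finset (Fin M)) ⊆ S ∪ (Z ∪ D) := by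
        intro l _
        by_cases h2 : l ∈ Z
        · exact mem_union_right _ (mem_union_left _ h2)
        · by_cases h3 : l ∈ D
          · exact mem_union_right _ (mem_union_right _ h3)
          · exact mem_union_left _ (mem_filter.2 ⟨mem_univ _, h2, h3⟩)
      have h2 := card_le_card h1
      rw [card_univ, Fintype.card_fin] at h2
      have h3 := card_union_le S (Z ∪ D)
      have h4 := card_union_le Z D
      omega
    have hSnz : ∀ l ∈ S, nz l := by
      intro l hl
      intro h1
      exact (mem_filter.1 hl).2.1 (mem_filter.2 ⟨mem_univ _, fun h2 => h2 h1⟩)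
    have himg : S.card ≤ m * (S.image cls).card := by
      apply card_le_mul_card_image
      intro a ha
      obtain ⟨l, hl, rfl⟩ := mem_image.1 ha
      refine (card_le_card ?_).trans (hcls l (hSnz l hl)).le
      intro k hk
      obtain ⟨hk1, hk2⟩ := mem_filter.1 hk
      rw [← hk2]
      exact hself k (hSnz k hk1)
    have hbig : m * m ≤ (S.image cls).card := by
      have h1 : m ^ 3 + m ≤ m * (S.image cls).card := by omega
      have h2 : m * (m * m) ≤ m * (S.image cls).card := by
        calc m * (m * m) = m ^ 3 := by ring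
          _ ≤ _ := by omega
      exact Nat.le_of_mul_le_mul_left h2 (by omega)
    obtain ⟨I, hI, hIc⟩ := exists_subset_card_eq hbig
    let e : Fin m × Fin m ≃ I := Fintype.equivOfCardEq (by
      rw [Fintype.card_coe, hIc, Fintype.card_prod, Fintype.card_fin])
    have hex : ∀ r, ∃ l ∈ S, cls l = (e r : Finset (Fin M)) := fun r => by
      obtain ⟨l, hl, hl'⟩ := mem_image.1 (hI (e r).2)
      exact ⟨l, hl, hl'⟩
    choose lr hlr hlre using hex
    have hex2 : ∀ l ∈ S, ∃ l', l' ≠ l ∧ nz l' ∧ l' ∈ cls l := by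
      intro l hl
      have hnz := hSnz l hl
      have h1 : ∃ z, h (some l) z ≠ 0 := by
        by_contra h2
        push Not at h2
        exact hnz ⟨h2 z1, h2 z2⟩
      obtain ⟨o, ho, a, ha, hoa⟩ := hpart (some l) h1
      rcases o with _ | l'
      · exfalso
        apply (mem_filter.1 hl).2.2
        have e1 : p0 = a * α l := hoa z1
        have e2 : q0 = a * β l := hoa z2
        refine mem_filter.2 ⟨mem_univ _, hnz, ?_, ?_⟩
        · rintro ⟨h3, h4⟩
          rw [e1] at h3
          rw [e2] at h4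
          exact hnz ⟨(mul_eq_zero.1 h3).resolve_left ha, (mul_eq_zero.1 h4).resolve_left ha⟩
        · rw [e1, e2]; ring
      · have e1 : α l' = a * α l := hoa z1
        have e2 : β l' = a * β l := hoa z2
        have hnz' : nz l' := by
          rintro ⟨h3, h4⟩
          rw [e1] at h3
          rw [e2] at h4
          exact hnz ⟨(mul_eq_zero.1 h3).resolve_left ha, (mul_eq_zero.1 h4).resolve_left ha⟩
        refine ⟨l', fun h2 => ho (by rw [h2]), hnz', mem_filter.2 ⟨mem_univ _, hnz', ?_⟩⟩
        rw [e1, e2]; ring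
    choose pr hpr1 hpr2 hpr3 using hex2
    have hB := pairs_indep (m := m) (K := m + 2) (by omega) (fun r => (lr r : ℕ))
      (fun r => (pr (lr r) (hlr r) : ℕ)) (by
        have key : ∀ r s k, k ∈ cls (lr r) → k ∈ cls (lr s) → r = s := by
          intro r s k h1 h2
          have h3 := heq _ _ k (hSnz _ (hlr r)) (hSnz _ (hlr s)) h1 h2
          rw [hlre, hlre] at h3
          exact e.injective (Subtype.ext h3)
        rintro (r | r) (s | s) hrs
        · simp only [Sum.elim_inl] at hrs
          have h1 := Fin.ext hrs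
          rw [key r s (lr r) (hself _ (hSnz _ (hlr r))) (by rw [h1]; exact hself _ (hSnz _ (hlr s)))]
        · simp only [Sum.elim_inl, Sum.elim_inr] at hrs
          have h1 := Fin.ext hrs
          have h2 := key r s (lr r) (hself _ (hSnz _ (hlr r))) (by rw [h1]; exact hpr3 _ _)
          subst h2
          exact absurd h1.symm (hpr1 _ _)
        · simp only [Sum.elim_inl, Sum.elim_inr] at hrs
          have h1 := Fin.ext hrs
          have h2 := key s r (lr s) (hself _ (hSnz _ (hlr s))) (by rw [← h1]; exact hpr3 _ _)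
          subst h2
          exact absurd h1 (hpr1 _ _)
        · simp only [Sum.elim_inr] at hrs
          have h1 := Fin.ext hrs
          rw [key r s _ (hpr3 _ _) (by rw [h1]; exact hpr3 _ _)])
      (fun a b => p (φ.symm a) * q (φ.symm b) - q (φ.symm a) * p (φ.symm b)) (by
        intro r
        have h1 := lf_two φ (lr r) (pr (lr r) (hlr r)) p q
        have h2 : β (lr r) * α (pr (lr r) (hlr r)) - α (lr r) * β (pr (lr r) (hlr r)) = 0 :=
          (mem_filter.1 (hpr3 (lr r) (hlr r))).2.2
        have h3 : lf φ (lr r) p * lf φ (pr (lr r) (hlr r)) q -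
            lf φ (lr r) q * lf φ (pr (lr r) (hlr r)) p = 0 := by
          have h4 : -(β (lr r) * α (pr (lr r) (hlr r)) - α (lr r) * β (pr (lr r) (hlr r))) = 0 := by
            rw [h2, neg_zero]
          rw [← h4]
          simp only [α, β]
          ring
        rw [h3] at h1
        rw [← h1, ← Equiv.sum_comp φ]
        apply sum_congr rfl
        intro i _
        rw [← Equiv.sum_comp φ]
        apply sum_congr rfl
        intro j _
        simp only [Equiv.symm_apply_apply])
    apply hcon
    intro i j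
    have := hB (φ i) (φ j)
    simp only [Equiv.symm_apply_apply] at this
    exact sub_eq_zero.1 this
  refine ⟨hfst, fun j => ?_⟩
  by_cases h0 : p0 = 0 ∧ q0 = 0
  · rw [h0.1, h0.2]; ring
  · have h1 : ∃ z, h none z ≠ 0 := by
      by_contra h2
      push Not at h2
      exact h0 ⟨h2 z1, h2 z2⟩
    obtain ⟨o, ho, a, ha, hoa⟩ := hpart none h1
    rcases o with _ | l
    · exact absurd rfl ho
    · have e1 : lf φ l p = a * p0 := hoa z1
      have e2 : lf φ l q = a * q0 := hoa z2
      apply mul_left_cancel₀ ha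
      calc a * (p0 * q j) = lf φ l p * q j := by rw [e1]; ring
        _ = lf φ l q * p j := by
          unfold lf
          rw [sum_mul, sum_mul]
          apply sum_congr rfl
          intro i _
          have := hfst i j
          calc p i * ((2 : ℂ) ^ (m + 2) ^ (l : ℕ)) ^ (φ i : ℕ) * q j =
              (p i * q j) * ((2 : ℂ) ^ (m + 2) ^ (l : ℕ)) ^ (φ i : ℕ) := by ring
            _ = (q i * p j) * ((2 : ℂ) ^ (m + 2) ^ (l : ℕ)) ^ (φ i : ℕ) := by rw [this]
            _ = _ := by ring
        _ = a * (q0 * p j) := by rw [e2]; ring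

end Pool.Agent.N254.HY
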