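import Pool.Agent.N254.HY.Fin

/-!
Finite sets of rational points as the sets of all rational points of hyperbolic hypersurfaces.
-/

set_option autoImplicit false

namespace Pool.Agent.N254.HY

open MvPolynomial Finset
open scoped LinearAlgebra.Projectivization

/-- a finite product of entire functions which are not zero is not zero -/
theorem ent_prod {α : Type} [Fintype α] (g : α → ℂ → ℂ) (hg : ∀ a, Differentiable ℂ (g a))
    (h0 : ∀ a, ∃ z, g a z ≠ 0) : ∃ z, ∏ a, g a z ≠ 0 := by
  classical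
  have key : ∀ T : Finset α, ∃ z, ∏ a ∈ T, g a z ≠ 0 := by
    intro T
    induction T using Finset.induction_on with
    | empty => exact ⟨0, by simp⟩
    | insert a T ha ih =>
      obtain ⟨z1, hz1⟩ := ih
      obtain ⟨z2, hz2⟩ := h0 a
      by_contra hcon
      push Not at hcon
      have h1 : ∀ z, g a z * ∏ b ∈ T, g b z = 0 := by
        intro z
        have := hcon z
        rwa [prod_insert ha] at this
      have h2 := ent_zero (z0 := z2) (hg a)
        (Differentiable.fun_finset_prod (fun b _ => hg b)) hz2 h1 z1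
      exact hz1 h2
  exact key univ

section

variable {K : Type} [Field K] {n : ℕ} (S : Finset (ℙ K (Fin (n + 1) → K)))

/-- products of the minors -/
noncomputable def SF (i : S → Fin (n + 1) × Fin (n + 1)) : MvPolynomial (Fin (n + 1)) K :=
  ∏ P : S, (C (P.1.rep (i P).1) * X (i P).2 - C (P.1.rep (i P).2) * X (i P).1)

theorem SF_hom (i : S → Fin (n + 1) × Fin (n + 1)) : ∃ d, (SF S i).IsHomogeneous d := by
  unfold SF
  refine ⟨_, IsHomogeneous.prod univ _ (fun _ => 1) fun P _ => ?_⟩
  apply IsHomogeneous.sub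
  · have := (isHomogeneous_C (Fin (n + 1)) (P.1.rep (i P).1)).mul (isHomogeneous_X K (i P).2)
    simpa using this
  · have := (isHomogeneous_C (Fin (n + 1)) (P.1.rep (i P).2)).mul (isHomogeneous_X K (i P).1)
    simpa using this

theorem eval₂_SF {R : Type} [CommRing R] (σ : K →+* R) (x : Fin (n + 1) → R)
    (i : S → Fin (n + 1) × Fin (n + 1)) : eval₂ σ x (SF S i) =
      ∏ P : S, (σ (P.1.rep (i P).1) * x (i P).2 - σ (P.1.rep (i P).2) * x (i P).1) := by
  unfold SF
  rw [eval₂_prod]
  apply prod_congr rfl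
  intro P _
  rw [eval₂_sub, eval₂_mul, eval₂_mul, eval₂_C, eval₂_C, eval₂_X, eval₂_X]

/-- vectors proportional to a nonzero vector -/
theorem prop_of_minors {R : Type} [Field R] {x y : Fin (n + 1) → R} (hy : y ≠ 0)
    (h : ∀ a b, y a * x b = y b * x a) : ∃ c : R, x = c • y := by
  obtain ⟨a, ha⟩ := Function.ne_iff.1 hy
  refine ⟨x a / y a, ?_⟩
  funext b
  rw [Pi.smul_apply, smul_eq_mul]
  have hya : y a ≠ 0 := ha
  field_simp
  linear_combination h a b

theorem SF_hyp (σ : K →+* ℂ) : Hyp σ (SF S) := by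
  classical
  intro f hf hf0 hfS
  have hfj : ∀ j, Differentiable ℂ (fun z => f z j) := fun j => by
    rw [differentiable_pi] at hf
    exact hf j
  -- one point of `S`
  have h1 : ∃ P : S, ∀ a b z, σ (P.1.rep a) * f z b - σ (P.1.rep b) * f z a = 0 := by
    by_contra hcon
    push Not at hcon
    choose a b hab using hcon
    obtain ⟨z, hz⟩ := ent_prod
      (fun (P : S) z => σ (P.1.rep (a P)) * f z (b P) - σ (P.1.rep (b P)) * f z (a P))
      (fun P => ((hfj _).const_mul _).sub ((hfj _).const_mul _)) hab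
    apply hz
    have h2 := hfS z (fun P => (a P, b P))
    rw [eval₂_SF] at h2
    exact h2
  obtain ⟨P, hP⟩ := h1
  let y : Fin (n + 1) → ℂ := fun a => σ (P.1.rep a)
  have hy : y ≠ 0 := by
    intro h0
    apply P.1.rep_nonzero
    funext a
    exact (map_eq_zero σ).1 (congrFun h0 a)
  have h2 : ∀ z, ∃ c : ℂ, f z = c • y := fun z =>
    prop_of_minors hy (fun a b => sub_eq_zero.1 (hP a b z))
  choose c hc using h2
  have hc0 : ∀ z, c z ≠ 0 := by
    intro z h0
    apply hf0 z
    rw [hc z, h0, zero_smul]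
  intro z w
  refine ⟨c z * (c w)⁻¹, ?_⟩
  rw [hc w, smul_smul, mul_assoc, inv_mul_cancel₀ (hc0 w), mul_one]
  exact hc z

theorem SF_pts (x : Fin (n + 1) → K) (hx : x ≠ 0) :
    (∀ i, eval x (SF S i) = 0) ↔ Projectivization.mk K x hx ∈ S := by
  classical
  have h3 : ∀ i, eval x (SF S i) = eval₂ (RingHom.id K) x (SF S i) := fun _ => rfl
  constructor
  · intro h
    have h1 : ∃ P : S, ∀ a b, P.1.rep a * x b - P.1.rep b * x a = 0 := by
      by_contra hcon
      push Not at hcon
      choose a b hab using hcon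
      have h2 := h (fun P => (a P, b P))
      rw [h3, eval₂_SF] at h2
      obtain ⟨P, -, hP⟩ := prod_eq_zero_iff.1 h2
      exact hab P hP
    obtain ⟨P, hP⟩ := h1
    obtain ⟨c, hc⟩ := prop_of_minors P.1.rep_nonzero (fun a b => sub_eq_zero.1 (hP a b))
    have h4 : Projectivization.mk K x hx = P.1 := by
      rw [← P.1.mk_rep, Projectivization.mk_eq_mk_iff']
      exact ⟨c, hc.symm⟩
    rw [h4]
    exact P.2
  · intro h i
    rw [h3, eval₂_SF]
    apply prod_eq_zero (mem_univ (⟨_, h⟩ : S))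
    obtain ⟨a, ha⟩ := Projectivization.exists_smul_eq_mk_rep K x hx
    have h2 : ∀ j, (Projectivization.mk K x hx).rep j = (a : K) * x j := by
      intro j
      rw [← ha]; rfl
    simp only [RingHom.id_apply, h2]
    ring

end

theorem sets (K : Type) [Field K] [NumberField K] (n : ℕ) (hn : 1 ≤ n)
    (S : Set (ℙ K (Fin (n + 1) → K))) (hS : S.Finite) :
    ∃ (N : ℕ) (A : MvPolynomial (Fin (n + 1)) K), 1 ≤ N ∧ A ≠ 0 ∧ A.IsHomogeneous N ∧
      (∀ σ : K →+* ℂ, Hyp σ (fun _ : Unit => A)) ∧ pts (fun _ : Unit => A) = S := by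
  classical
  obtain ⟨M, e, c, h, he, -, hh, H⟩ := main K n _ (SF hS.toFinset) (SF_hom hS.toFinset)
  obtain ⟨H1, H2⟩ := H ((M + 1) ^ 2) le_rfl
  set A := diag ((M + 1) ^ 2) c h with hA
  have hN : 1 ≤ (M + 1) ^ 2 * e := Nat.mul_pos (by positivity) he
  have hAh : A.IsHomogeneous ((M + 1) ^ 2 * e) := diag_hom hh
  have hhyp : ∀ σ : K →+* ℂ, Hyp σ (fun _ : Unit => A) := fun σ =>
    hyp_of_cov σ hN ((H2 σ).2.2 (SF_hyp _ σ))
  refine ⟨(M + 1) ^ 2 * e, A, hN, ?_, hAh, hhyp, ?_⟩
  · intro h0
    obtain ⟨σ⟩ : Nonempty (K →+* ℂ) := inferInstance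
    have h1 := hhyp σ
    rw [h0] at h1
    obtain ⟨k, rfl⟩ : ∃ k, n = k + 1 := ⟨n - 1, by omega⟩
    obtain ⟨a, ha⟩ := h1 (fun z i => if i = 0 then 1 else z) (by
        rw [differentiable_pi]
        intro i
        by_cases hi : i = 0
        · simp only [hi, if_true]; exact differentiable_const _
        · simp only [hi, if_false]; exact differentiable_id) (by
        intro z h2
        have := congrFun h2 0
        simp at this) (by
        intro z _
        rw [eval₂_zero]) 1 0
    have h2 := congrFun ha 0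
    have h3 := congrFun ha 1
    simp at h2 h3
  · ext P
    have hP := P.rep_nonzero
    have h1 : P ∈ pts (fun _ : Unit => A) ↔ eval P.rep A = 0 :=
      ⟨fun h => h (), fun h _ => h⟩
    rw [h1]
    have hsn : (fun j => (Fin.snoc P.rep 0 : Fin (n + 2) → K) (Fin.castSucc j)) = P.rep :=
      funext fun j => Fin.snoc_castSucc _ _ _
    have h2 := H1 (Fin.snoc P.rep 0) (by
      intro h0
      apply hP
      funext i
      have := congrFun h0 (Fin.castSucc i)
      rw [Fin.snoc_castSucc] at this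
      exact this)
    have h3 : eval (Fin.snoc P.rep 0 : Fin (n + 2) → K) (cov ((M + 1) ^ 2 * e) A) =
        -eval P.rep A := by
      have h4 : eval (Fin.snoc P.rep 0 : Fin (n + 2) → K) (cov ((M + 1) ^ 2 * e) A) =
        eval₂ (RingHom.id K) (Fin.snoc P.rep 0 : Fin (n + 2) → K) (cov ((M + 1) ^ 2 * e) A) := rfl
      rw [h4, eval₂_cov, Fin.snoc_last, zero_pow (by omega), hsn, zero_sub]
      rfl
    rw [h3, neg_eq_zero, hsn, Fin.snoc_last] at h2
    rw [h2, SF_pts _ _ hP, Set.Finite.mem_toFinset, P.mk_rep]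
    simp

end Pool.Agent.N254.HY
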